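import Pool.Agent.Helper54.TD.Defs

/-!
# TD module D5: spaces on which the forms of all differences vanish
-/

set_option autoImplicit false

namespace Pool.Agent.Helper89.TD

open Module Finset Pool.Agent.Helper54.PT

section Form

variable {ℓ : ℕ} [Fact ℓ.Prime] {k : ℕ}

/-- the form `phiK` as a bilinear form -/
noncomputable def bfm (ℓ k : ℕ) [Fact ℓ.Prime] :
    LinearMap.BilinForm (ZMod ℓ) ((Fin k → ZMod ℓ) × (Fin k → ZMod ℓ)) :=
  LinearMap.mk₂ (ZMod ℓ) (fun z z' => phiK z z')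
    (fun z z' w => by
      simp only [phiK, Prod.fst_add, Prod.snd_add, Pi.add_apply, ← Finset.sum_add_distrib]
      exact Finset.sum_congr rfl fun i _ => by ring)
    (fun c z w => by
      simp only [phiK, Prod.smul_fst, Prod.smul_snd, Pi.smul_apply, smul_eq_mul, Finset.mul_sum]
      exact Finset.sum_congr rfl fun i _ => by ring)
    (fun z w w' => by
      simp only [phiK, Prod.fst_add, Prod.snd_add, Pi.add_apply, ← Finset.sum_add_distrib]
      exact Finset.sum_congr rfl fun i _ => by ring)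
    (fun c z w => by
      simp only [phiK, Prod.smul_fst, Prod.smul_snd, Pi.smul_apply, smul_eq_mul, Finset.mul_sum]
      exact Finset.sum_congr rfl fun i _ => by ring)

lemma bfm_apply (z z' : (Fin k → ZMod ℓ) × (Fin k → ZMod ℓ)) : bfm ℓ k z z' = phiK z z' := rfl

lemma phiK_symm (z z' : (Fin k → ZMod ℓ) × (Fin k → ZMod ℓ)) : phiK z z' = phiK z' z := by
  unfold phiK
  exact Finset.sum_congr rfl fun i _ => by ring

lemma bfm_ker : LinearMap.ker (bfm ℓ k) = ⊥ := by
  rw [LinearMap.ker_eq_bot']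
  intro z hz
  have h1 : ∀ i, z.1 i = 0 := by
    intro i
    have := congrArg (fun f => f ((0 : Fin k → ZMod ℓ), (Pi.single i 1 : Fin k → ZMod ℓ))) hz
    simp only [bfm_apply, LinearMap.zero_apply, phiK, Pi.zero_apply, zero_mul, add_zero] at this
    rw [Finset.sum_eq_single i] at this
    · simpa using this
    · intro j _ hj
      rw [Pi.single_eq_of_ne hj, mul_zero]
    · intro h; exact absurd (Finset.mem_univ i) h
  have h2 : ∀ i, z.2 i = 0 := by
    intro i
    have := congrArg (fun f => f ((Pi.single i 1 : Fin k → ZMod ℓ), (0 : Fin k → ZMod ℓ))) hz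
    simp only [bfm_apply, LinearMap.zero_apply, phiK, Pi.zero_apply, mul_zero, zero_add] at this
    rw [Finset.sum_eq_single i] at this
    · simpa using this
    · intro j _ hj
      rw [Pi.single_eq_of_ne hj, zero_mul]
    · intro h; exact absurd (Finset.mem_univ i) h
  exact Prod.ext (funext h1) (funext h2)

lemma finrank_orth (L : Submodule (ZMod ℓ) ((Fin k → ZMod ℓ) × (Fin k → ZMod ℓ))) :
    finrank (ZMod ℓ) L + finrank (ZMod ℓ) ((bfm ℓ k).orthogonal L) = 2 * k := by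
  rw [LinearMap.BilinForm.finrank_add_finrank_orthogonal', bfm_ker, inf_bot_eq, finrank_bot,
    Module.finrank_prod, Module.finrank_fin_fun]
  omega

lemma isotropic_le (L : Submodule (ZMod ℓ) ((Fin k → ZMod ℓ) × (Fin k → ZMod ℓ)))
    (hL : ∀ z ∈ L, ∀ z' ∈ L, phiK z z' = 0) : finrank (ZMod ℓ) L ≤ k := by
  have h1 : L ≤ (bfm ℓ k).orthogonal L := by
    intro z hz
    rw [LinearMap.BilinForm.mem_orthogonal_iff]
    intro n hn
    exact hL n hn z hz
  have h2 := Submodule.finrank_mono h1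
  have h3 := finrank_orth L
  omega

/-- A maximal isotropic subspace equals any subspace of dimension `k` orthogonal to it. -/
lemma eq_of_orth (L L' : Submodule (ZMod ℓ) ((Fin k → ZMod ℓ) × (Fin k → ZMod ℓ)))
    (hL : ∀ z ∈ L, ∀ z' ∈ L, phiK z z' = 0) (h1 : finrank (ZMod ℓ) L = k)
    (h2 : finrank (ZMod ℓ) L' = k) (h : ∀ z ∈ L, ∀ z' ∈ L', phiK z z' = 0) : L' = L := by
  have h3 : L ≤ (bfm ℓ k).orthogonal L := by
    intro z hz
    rw [LinearMap.BilinForm.mem_orthogonal_iff]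
    intro n hn
    exact hL n hn z hz
  have h4 : L' ≤ (bfm ℓ k).orthogonal L := by
    intro z hz
    rw [LinearMap.BilinForm.mem_orthogonal_iff]
    intro n hn
    exact h n hn z hz
  have h5 := finrank_orth L
  have h6 : L = (bfm ℓ k).orthogonal L := Submodule.eq_of_le_of_finrank_le h3 (by omega)
  have h7 : L' = (bfm ℓ k).orthogonal L := Submodule.eq_of_le_of_finrank_le h4 (by omega)
  rw [h7, ← h6]

end Form

section Pi

variable {F : Type} [Field F] {J V : Type} [Fintype J] [AddCommGroup V] [Module F V]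
  [FiniteDimensional F V]

/-- the product of subspaces -/
def piE (L : J → Submodule F V) : (Submodule.pi (Set.univ : Set J) L) ≃ₗ[F] (∀ j, L j) where
  toFun z j := ⟨z.1 j, (Submodule.mem_pi.1 z.2) j (Set.mem_univ j)⟩
  map_add' z z' := rfl
  map_smul' c z := rfl
  invFun f := ⟨fun j => (f j).1, Submodule.mem_pi.2 fun j _ => (f j).2⟩
  left_inv z := rfl
  right_inv f := rfl

lemma finrank_piS (L : J → Submodule F V) :
    finrank F (Submodule.pi (Set.univ : Set J) L) = ∑ j, finrank F (L j) := by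
  rw [LinearEquiv.finrank_eq (piE L), Module.finrank_pi_fintype]

end Pi

section Main

variable {ℓ : ℕ} [Fact ℓ.Prime] {ι : Type} [Fintype ι] [DecidableEq ι] (a : ι → ℕ) (i₀ : ι)
  (k : ℕ)

/-- abbreviation -/
abbrev VV (ℓ k : ℕ) : Type := (Fin k → ZMod ℓ) × (Fin k → ZMod ℓ)

/-- the extension at `i₀` as a linear map -/
noncomputable def e0 : ({j : ι // j ≠ i₀} → VV ℓ k) →ₗ[ZMod ℓ] VV ℓ k :=
  -((a i₀ : ZMod ℓ)⁻¹ • ∑ j : {j : ι // j ≠ i₀}, (a j.1 : ZMod ℓ) • LinearMap.proj j)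

lemma e0_apply (z : {j : ι // j ≠ i₀} → VV ℓ k) :
    e0 a i₀ k z = -((a i₀ : ZMod ℓ)⁻¹ • ∑ j : {j : ι // j ≠ i₀}, (a j.1 : ZMod ℓ) • z j) := by
  simp [e0, LinearMap.sum_apply]

lemma extP_self (z : {j : ι // j ≠ i₀} → VV ℓ k) : extP a i₀ z i₀ = e0 a i₀ k z := by
  rw [e0_apply]
  refine Prod.ext ?_ ?_
  · funext κ
    simp only [extP, Helper54.PT.ext, dif_pos, Prod.fst_neg, Prod.smul_fst, Prod.fst_sum, Pi.neg_apply,
      Pi.smul_apply, Finset.sum_apply, smul_eq_mul]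
  · funext κ
    simp only [extP, Helper54.PT.ext, dif_pos, Prod.snd_neg, Prod.smul_snd, Prod.snd_sum, Pi.neg_apply,
      Pi.smul_apply, Finset.sum_apply, smul_eq_mul]

lemma extP_ne (z : {j : ι // j ≠ i₀} → VV ℓ k) (j : {j : ι // j ≠ i₀}) :
    extP a i₀ z j.1 = z j := by
  refine Prod.ext ?_ ?_
  · funext κ
    simp only [extP, Helper54.PT.ext, dif_neg j.2]
  · funext κ
    simp only [extP, Helper54.PT.ext, dif_neg j.2]

/-- the differences -/
noncomputable def dfm : ({j : ι // j ≠ i₀} → VV ℓ k) →ₗ[ZMod ℓ] ({j : ι // j ≠ i₀} → VV ℓ k) :=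
  LinearMap.pi fun j => LinearMap.proj j - e0 a i₀ k

lemma dfm_apply (z : {j : ι // j ≠ i₀} → VV ℓ k) (j : {j : ι // j ≠ i₀}) :
    dfm a i₀ k z j = z j - e0 a i₀ k z := rfl

lemma dfm_sub (z : {j : ι // j ≠ i₀} → VV ℓ k) (j m : {j : ι // j ≠ i₀}) :
    extP a i₀ z j.1 - extP a i₀ z m.1 = dfm a i₀ k z j - dfm a i₀ k z m := by
  rw [extP_ne, extP_ne, dfm_apply, dfm_apply]
  abel

lemma dfm_sub0 (z : {j : ι // j ≠ i₀} → VV ℓ k) (j : {j : ι // j ≠ i₀}) :
    extP a i₀ z j.1 - extP a i₀ z i₀ = dfm a i₀ k z j := by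
  rw [extP_ne, extP_self, dfm_apply]

variable {a i₀}

lemma sum_dfm (ha : ∀ i, ¬ ℓ ∣ a i) (z : {j : ι // j ≠ i₀} → VV ℓ k) :
    ∑ j : {j : ι // j ≠ i₀}, (a j.1 : ZMod ℓ) • dfm a i₀ k z j =
      -((∑ i, (a i : ZMod ℓ)) • e0 a i₀ k z) := by
  have ha0 : (a i₀ : ZMod ℓ) ≠ 0 := by
    rw [Ne, ZMod.natCast_eq_zero_iff]
    exact ha i₀
  have h1 : ∑ j : {j : ι // j ≠ i₀}, (a j.1 : ZMod ℓ) • z j = -((a i₀ : ZMod ℓ) • e0 a i₀ k z) := by
    rw [e0_apply, smul_neg, neg_neg, smul_smul, mul_inv_cancel₀ ha0, one_smul]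
  have h2 : ∑ i, (a i : ZMod ℓ) = (a i₀ : ZMod ℓ) + ∑ j : {j : ι // j ≠ i₀}, (a j.1 : ZMod ℓ) := by
    rw [← Finset.add_sum_erase _ _ (Finset.mem_univ i₀)]
    congr 1
    rw [← Finset.sum_subtype (Finset.univ.erase i₀) (fun x => by simp) (fun i => (a i : ZMod ℓ))]
  simp only [dfm_apply, smul_sub, Finset.sum_sub_distrib]
  rw [h1, ← Finset.sum_smul, h2, add_smul]
  abel

lemma e0_of_dfm (ha : ∀ i, ¬ ℓ ∣ a i) (hs : ¬ ℓ ∣ ∑ i, a i) (z : {j : ι // j ≠ i₀} → VV ℓ k) :
    e0 a i₀ k z = -((∑ i, (a i : ZMod ℓ))⁻¹ •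
      ∑ j : {j : ι // j ≠ i₀}, (a j.1 : ZMod ℓ) • dfm a i₀ k z j) := by
  have hs0 : (∑ i, (a i : ZMod ℓ)) ≠ 0 := by
    rw [← Nat.cast_sum, Ne, ZMod.natCast_eq_zero_iff]
    exact hs
  rw [sum_dfm k ha, smul_neg, neg_neg, smul_smul, inv_mul_cancel₀ hs0, one_smul]

lemma dfm_inj (ha : ∀ i, ¬ ℓ ∣ a i) (hs : ¬ ℓ ∣ ∑ i, a i) :
    Function.Injective (dfm (ℓ := ℓ) a i₀ k) := by
  rw [← LinearMap.ker_eq_bot, LinearMap.ker_eq_bot']
  intro z hz
  have h0 : e0 a i₀ k z = 0 := by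
    rw [e0_of_dfm k ha hs, hz]
    simp
  funext j
  have := congrFun hz j
  rw [dfm_apply, h0, sub_zero] at this
  exact this

end Main

end Pool.Agent.Helper89.TD

namespace Pool.Agent.Helper54.PT

open Module Finset Pool.Agent.Helper89.TD

/-- D5: spaces on which the forms of all differences vanish -/
theorem rows_lag {ℓ : ℕ} [Fact ℓ.Prime] {ι : Type} [Fintype ι] [DecidableEq ι] {a : ι → ℕ} {i₀ : ι}
    (ha : ∀ i, ¬ ℓ ∣ a i) (hs : ¬ ℓ ∣ ∑ i, a i) (k : ℕ)
    (W : Submodule (ZMod ℓ) ({j : ι // j ≠ i₀} → (Fin k → ZMod ℓ) × (Fin k → ZMod ℓ)))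
    (hW : finrank (ZMod ℓ) W = Fintype.card {j : ι // j ≠ i₀} * k)
    (h : ∀ z ∈ W, ∀ z' ∈ W, ∀ i m : ι, i ≠ m →
      phiK (extP a i₀ z i - extP a i₀ z m) (extP a i₀ z' i - extP a i₀ z' m) = 0) :
    ∃ L : Submodule (ZMod ℓ) ((Fin k → ZMod ℓ) × (Fin k → ZMod ℓ)), IsLk L ∧
      ∀ z, z ∈ W ↔ ∀ j, z j ∈ L := by
  classical
  have hinj := dfm_inj (ℓ := ℓ) (i₀ := i₀) k ha hs
  rcases isEmpty_or_nonempty {j : ι // j ≠ i₀} with hJ | ⟨⟨j₀⟩⟩
  · refine ⟨LinearMap.ker (LinearMap.fst (ZMod ℓ) (Fin k → ZMod ℓ) (Fin k → ZMod ℓ)),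
      ⟨?_, ?_⟩, ?_⟩
    · rw [LinearMap.ker_fst, LinearMap.finrank_range_of_inj LinearMap.inr_injective,
        Module.finrank_fin_fun]
    · intro z hz z' hz'
      have h1 : z.1 = 0 := hz
      have h2 : z'.1 = 0 := hz'
      simp [phiK, h1, h2]
    · intro z
      have : z = 0 := Subsingleton.elim _ _
      rw [this]
      exact ⟨fun _ j => (hJ.false j).elim, fun _ => W.zero_mem⟩
  · set W' := W.map (dfm (ℓ := ℓ) a i₀ k) with hW'
    have hfW' : finrank (ZMod ℓ) W' = Fintype.card {j : ι // j ≠ i₀} * k := by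
      rw [hW', ← LinearEquiv.finrank_eq (Submodule.equivMapOfInjective _ hinj W), hW]
    set L : {j : ι // j ≠ i₀} → Submodule (ZMod ℓ) ((Fin k → ZMod ℓ) × (Fin k → ZMod ℓ)) :=
      fun j => W'.map (LinearMap.proj j) with hL
    have hiso : ∀ j, ∀ z ∈ L j, ∀ z' ∈ L j, phiK z z' = 0 := by
      intro j z hz z' hz'
      obtain ⟨w, hw, rfl⟩ := Submodule.mem_map.1 hz
      obtain ⟨w', hw', rfl⟩ := Submodule.mem_map.1 hz'
      obtain ⟨v, hv, rfl⟩ := Submodule.mem_map.1 hw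
      obtain ⟨v', hv', rfl⟩ := Submodule.mem_map.1 hw'
      have := h v hv v' hv' j.1 i₀ j.2
      rw [dfm_sub0, dfm_sub0] at this
      exact this
    have hle : ∀ j, finrank (ZMod ℓ) (L j) ≤ k := fun j => isotropic_le _ (hiso j)
    have hsub : W' ≤ Submodule.pi Set.univ L := by
      intro w hw
      rw [Submodule.mem_pi]
      intro j _
      exact Submodule.mem_map.2 ⟨w, hw, rfl⟩
    have hpi := finrank_piS (F := ZMod ℓ) L
    have hm := Submodule.finrank_mono hsub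
    rw [hfW', hpi] at hm
    have hsum : ∑ j, finrank (ZMod ℓ) (L j) ≤ ∑ _j : {j : ι // j ≠ i₀}, k :=
      Finset.sum_le_sum fun j _ => hle j
    have hc : ∑ _j : {j : ι // j ≠ i₀}, k = Fintype.card {j : ι // j ≠ i₀} * k := by
      rw [Finset.sum_const, Finset.card_univ, smul_eq_mul]
    have heqsum : ∑ j, finrank (ZMod ℓ) (L j) = ∑ _j : {j : ι // j ≠ i₀}, k := by omega
    have heq : ∀ j, finrank (ZMod ℓ) (L j) = k := by
      intro j
      exact (Finset.sum_eq_sum_iff_of_le (fun j _ => hle j)).1 heqsum j (Finset.mem_univ j)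
    have hWpi : W' = Submodule.pi Set.univ L := by
      apply Submodule.eq_of_le_of_finrank_le hsub
      rw [hpi, hfW']
      omega
    have hall : ∀ j m, L m = L j := by
      intro j m
      rcases eq_or_ne j m with rfl | hjm
      · rfl
      refine eq_of_orth _ _ (hiso j) (heq j) (heq m) ?_
      intro x hx y hy
      have hx' : (Pi.single j x : {j : ι // j ≠ i₀} → _) ∈ W' := by
        rw [hWpi, Submodule.mem_pi]
        intro t _
        rcases eq_or_ne t j with rfl | ht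
        · rw [Pi.single_eq_same]; exact hx
        · rw [Pi.single_eq_of_ne ht]; exact (L t).zero_mem
      have hy' : (Pi.single m y : {j : ι // j ≠ i₀} → _) ∈ W' := by
        rw [hWpi, Submodule.mem_pi]
        intro t _
        rcases eq_or_ne t m with rfl | ht
        · rw [Pi.single_eq_same]; exact hy
        · rw [Pi.single_eq_of_ne ht]; exact (L t).zero_mem
      obtain ⟨v, hv, hv1⟩ := Submodule.mem_map.1 hx'
      obtain ⟨w, hw, hw1⟩ := Submodule.mem_map.1 hy'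
      have := h v hv w hw j.1 m.1 (fun h => hjm (Subtype.ext h))
      rw [dfm_sub, dfm_sub, hv1, hw1, Pi.single_eq_same, Pi.single_eq_of_ne hjm.symm,
        Pi.single_eq_of_ne hjm, Pi.single_eq_same, sub_zero, zero_sub] at this
      have h2 : phiK x (-y) = -phiK x y := by
        unfold phiK
        rw [← Finset.sum_neg_distrib]
        refine Finset.sum_congr rfl fun i _ => ?_
        simp only [Prod.fst_neg, Prod.snd_neg, Pi.neg_apply]
        ring
      rw [h2, neg_eq_zero] at this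
      exact this
    refine ⟨L j₀, ⟨heq j₀, hiso j₀⟩, ?_⟩
    intro z
    have hz1 : z ∈ W ↔ ∀ j, dfm a i₀ k z j ∈ L j₀ := by
      have e1 : z ∈ W ↔ dfm a i₀ k z ∈ W' := by
        constructor
        · intro hz
          exact Submodule.mem_map.2 ⟨z, hz, rfl⟩
        · intro hz
          obtain ⟨w, hw, hw1⟩ := Submodule.mem_map.1 hz
          rw [← hinj hw1]
          exact hw
      rw [e1, hWpi, Submodule.mem_pi]
      constructor
      · intro h1 j
        rw [← hall j₀ j]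
        exact h1 j (Set.mem_univ j)
      · intro h1 j _
        rw [hall j₀ j]
        exact h1 j
    rw [hz1]
    constructor
    · intro h1 j
      have h2 : e0 a i₀ k z ∈ L j₀ := by
        rw [e0_of_dfm k ha hs]
        exact (L j₀).neg_mem ((L j₀).smul_mem _ ((L j₀).sum_mem fun m _ =>
          (L j₀).smul_mem _ (h1 m)))
      have h3 := (L j₀).add_mem (h1 j) h2
      rwa [dfm_apply, sub_add_cancel] at h3
    · intro h1 j
      rw [dfm_apply, e0_apply]
      exact (L j₀).sub_mem (h1 j) ((L j₀).neg_mem ((L j₀).smul_mem _ ((L j₀).sum_mem fun m _ =>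
          (L j₀).smul_mem _ (h1 m))))

end Pool.Agent.Helper54.PT
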